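import Pool.Agent.Helper77.PE.Fam

/-!
# Exponential maps near the true one with prescribed values of `π` and `e`

(after helper77's `PE.approx` and `PE.main_approx`, with the identity replaced by a linear map)
-/

open Set Complex Cardinal

namespace Pool.Agent.Helper90.EL

open Pool.Agent.H96RS Pool.Agent.H96RS2 Pool.Agent.Helper77.PE

/-- the real linear map `x + i y ↦ a x + i b y` -/
noncomputable def Lin (a b : ℝ) (z : ℂ) : ℂ := ((a * z.re : ℝ) : ℂ) + ((b * z.im : ℝ) : ℂ) * I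

theorem lin_add (a b : ℝ) (z w : ℂ) : Lin a b (z + w) = Lin a b z + Lin a b w := by
  simp only [Lin, Complex.add_re, Complex.add_im]
  push_cast
  ring

theorem lin_smul (a b : ℝ) (q : ℚ) (z : ℂ) : Lin a b (q • z) = q • Lin a b z := by
  rw [Rat.smul_def, Rat.smul_def]
  apply Complex.ext
  · simp [Lin]; ring
  · simp [Lin]; ring

theorem lin_zero (a b : ℝ) : Lin a b 0 = 0 := by simp [Lin]

theorem lin_conj (a b : ℝ) (z : ℂ) :
    Lin a b (starRingEnd ℂ z) = starRingEnd ℂ (Lin a b z) := by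
  apply Complex.ext <;> simp [Lin]

theorem lin_sub_norm (a b : ℝ) (z : ℂ) : ‖Lin a b z - z‖ ≤ (|a - 1| + |b - 1|) * ‖z‖ := by
  have h1 : Lin a b z - z = (((a - 1) * z.re : ℝ) : ℂ) + (((b - 1) * z.im : ℝ) : ℂ) * I := by
    apply Complex.ext
    · simp [Lin]; ring
    · simp [Lin]; ring
  rw [h1, add_mul]
  refine (norm_add_le _ _).trans (add_le_add ?_ ?_)
  · rw [Complex.norm_real, Real.norm_eq_abs, abs_mul]
    exact mul_le_mul_of_nonneg_left (Complex.abs_re_le_norm z) (abs_nonneg _)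
  · rw [norm_mul, Complex.norm_I, mul_one, Complex.norm_real, Real.norm_eq_abs, abs_mul]
    exact mul_le_mul_of_nonneg_left (Complex.abs_im_le_norm z) (abs_nonneg _)

/-- a countable partial exponential map on the span of `S0` which is `ε`-close to `exp ∘ Lin`
on `S0` -/
def LBase (a b : ℝ) (S0 : Set ℂ) (ε : ℝ) (ω : ℂ) (τ : ℝ) (G : Submodule ℚ (ℂ × ℂ)) : Prop :=
  Good ω τ G ∧ #G ≤ ℵ₀ ∧ (∀ v ∈ G, v.1 ∈ Submodule.span ℚ S0) ∧
    ∀ s ∈ S0, ∃ v ∈ G, v.1 = s ∧ ‖v.2 - Lin a b s‖ ≤ ε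

theorem exists_const (a b : ℝ) {S : Set ℂ} {f : ℂ} (hf : f ∈ Submodule.span ℚ S) :
    ∃ C : ℝ, 0 ≤ C ∧ ∀ (G : Submodule ℚ (ℂ × ℂ)) (ε : ℝ),
      (∀ s ∈ S, ∃ v ∈ G, v.1 = s ∧ ‖v.2 - Lin a b s‖ ≤ ε) →
      ∃ v ∈ G, v.1 = f ∧ ‖v.2 - Lin a b f‖ ≤ C * ε := by
  induction hf using Submodule.span_induction with
  | mem x hx =>
    refine ⟨1, zero_le_one, fun G ε h => ?_⟩
    rw [one_mul]
    exact h x hx
  | zero => exact ⟨0, le_rfl, fun G ε _ => ⟨0, G.zero_mem, rfl, by simp [lin_zero]⟩⟩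
  | add x y _ _ ihx ihy =>
    obtain ⟨C1, h1, h1'⟩ := ihx
    obtain ⟨C2, h2, h2'⟩ := ihy
    refine ⟨C1 + C2, by positivity, fun G ε h => ?_⟩
    obtain ⟨v, hv, rfl, hv2⟩ := h1' G ε h
    obtain ⟨w, hw, rfl, hw2⟩ := h2' G ε h
    refine ⟨v + w, G.add_mem hv hw, rfl, ?_⟩
    have h3 : (v + w).2 - Lin a b (v.1 + w.1) = (v.2 - Lin a b v.1) + (w.2 - Lin a b w.1) := by
      rw [Prod.snd_add, lin_add]; ring
    rw [h3, add_mul]
    exact (norm_add_le _ _).trans (add_le_add hv2 hw2)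
  | smul q x _ ihx =>
    obtain ⟨C1, h1, h1'⟩ := ihx
    refine ⟨|(q : ℝ)| * C1, by positivity, fun G ε h => ?_⟩
    obtain ⟨v, hv, rfl, hv2⟩ := h1' G ε h
    refine ⟨q • v, G.smul_mem q hv, rfl, ?_⟩
    have h3 : (q • v).2 - Lin a b (q • v.1) = (q : ℂ) * (v.2 - Lin a b v.1) := by
      rw [Prod.smul_snd, lin_smul, Rat.smul_def, Rat.smul_def]; ring
    rw [h3, norm_mul, mul_assoc]
    have h4 : ‖(q : ℂ)‖ = |(q : ℝ)| := by
      rw [← Complex.ofReal_ratCast, Complex.norm_real, Real.norm_eq_abs]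
    rw [h4]
    gcongr

theorem approx {a b : ℝ} {S0 : Set ℂ} {ω : ℂ} {τ : ℝ} {G0 : Submodule ℚ (ℂ × ℂ)}
    (h0 : ∀ ε > 0, LBase a b S0 ε ω τ G0)
    (F : Finset ℂ) (hF : ∀ f ∈ F, f.im = 0 ∨ f.re = 0) :
    ∀ ε > 0, ∃ G, G0 ≤ G ∧ LBase a b (S0 ∪ F) ε ω τ G := by
  classical
  induction F using Finset.induction_on with
  | empty =>
    intro ε hε
    refine ⟨G0, le_rfl, ?_⟩
    rw [Finset.coe_empty, union_empty]
    exact h0 ε hε
  | insert f F hfF ih =>
    intro ε hε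
    have ih' := ih fun g hg => hF g (Finset.mem_insert_of_mem hg)
    have hsub : S0 ∪ (F : Set ℂ) ⊆ S0 ∪ ((insert f F : Finset ℂ) : Set ℂ) := by
      rw [Finset.coe_insert]
      exact union_subset_union_right _ (subset_insert _ _)
    have hmem : ∀ s ∈ S0 ∪ ((insert f F : Finset ℂ) : Set ℂ), s = f ∨ s ∈ S0 ∪ (F : Set ℂ) := by
      rintro s (hs | hs)
      · exact Or.inr (Or.inl hs)
      · rw [Finset.coe_insert] at hs
        rcases hs with rfl | hs
        · exact Or.inl rfl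
        · exact Or.inr (Or.inr hs)
    by_cases hf : f ∈ Submodule.span ℚ (S0 ∪ (F : Set ℂ))
    · obtain ⟨C, hC, hC'⟩ := exists_const a b hf
      have hε' : 0 < ε / (1 + C) := by positivity
      obtain ⟨G, h2, h3, h4, h5, h6⟩ := ih' (ε / (1 + C)) hε'
      have hle : ε / (1 + C) ≤ ε := div_le_self hε.le (by linarith)
      have hCε : C * (ε / (1 + C)) ≤ ε := by
        rw [mul_div_assoc', div_le_iff₀ (by positivity)]
        nlinarith
      refine ⟨G, h2, h3, h4, fun v hv => Submodule.span_mono hsub (h5 v hv), ?_⟩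
      intro s hs
      rcases hmem s hs with rfl | hs
      · obtain ⟨v, hv, hv1, hv2⟩ := hC' G _ h6
        exact ⟨v, hv, hv1, hv2.trans hCε⟩
      · obtain ⟨v, hv, hv1, hv2⟩ := h6 s hs
        exact ⟨v, hv, hv1, hv2.trans hle⟩
    · obtain ⟨G, h2, h3, h4, h5, h6⟩ := ih' ε hε
      have hc : #(Mt.closure (Nums G)) < 𝔠 :=
        cl_nums_card (h4.trans_lt Cardinal.aleph0_lt_continuum)
      obtain ⟨u, hu, e, hcf, hcu⟩ : ∃ u : ℂ, (u = 1 ∨ u = I) ∧ ∃ e : ℚ,
          starRingEnd ℂ f = e • f ∧ starRingEnd ℂ u = e • u := by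
        rcases hF f (Finset.mem_insert_self f F) with h | h
        · refine ⟨1, Or.inl rfl, 1, ?_, ?_⟩
          · rw [one_smul]; exact Complex.conj_eq_iff_im.2 h
          · rw [one_smul, map_one]
        · refine ⟨I, Or.inr rfl, -1, ?_, ?_⟩
          · rw [neg_one_smul]; apply Complex.ext <;> simp [h]
          · rw [neg_one_smul]; apply Complex.ext <;> simp
      obtain ⟨t, ht, htF⟩ := gen_near hc (Lin a b f) u hu (δ := min ε 1) (by positivity)
        (min_le_right _ _)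
      set l : ℂ := Lin a b f + (min ε 1 * t : ℝ) * u with hl
      have hcl : starRingEnd ℂ l = e • l := by
        rw [hl, map_add, map_mul, ← lin_conj, hcf, lin_smul, hcu, Complex.conj_ofReal, smul_add,
          mul_smul_comm]
      have hext := h3.ext (nums_sub G) (g := f) (l := l) (e := e) hcf hcl
        (fun v hv he => hf (he ▸ h5 v hv))
        (fun v hv he => htF (by rw [← he]; exact nums_sub G ⟨v, hv, Or.inr rfl⟩)) (Or.inr htF)
      refine ⟨_, h2.trans le_sup_left, hext, ?_, ?_, ?_⟩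
      · exact (sup_span_card _ _).trans (max_le h4 le_rfl)
      · intro v hv
        obtain ⟨w, hw, q, rfl⟩ := mem_dec hv
        refine Submodule.add_mem _ (Submodule.span_mono hsub (h5 w hw)) (Submodule.smul_mem _ _
          (Submodule.subset_span (Or.inr ?_)))
        rw [Finset.coe_insert]; exact Or.inl rfl
      · intro s hs
        rcases hmem s hs with rfl | hs
        · refine ⟨(s, l), mem_span_w _ _, rfl, ?_⟩
          have h7 : l - Lin a b s = (min ε 1 * t : ℝ) * u := by rw [hl]; ring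
          show ‖l - Lin a b s‖ ≤ ε
          rw [h7, norm_mul, Complex.norm_real, Real.norm_eq_abs,
            abs_of_pos (mul_pos (by positivity) ht.1)]
          have hu1 : ‖u‖ = 1 := by rcases hu with rfl | rfl <;> simp
          rw [hu1, mul_one]
          calc min ε 1 * t ≤ min ε 1 * 1 := by
                gcongr
                exact ht.2.le
            _ ≤ ε := by rw [mul_one]; exact min_le_left _ _
        · obtain ⟨v, hv, hv1, hv2⟩ := h6 s hs
          exact ⟨v, (le_sup_left : G ≤ _) hv, hv1, hv2⟩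

theorem famC (F : Finset ℂ) {ε : ℝ} (hε : 0 < ε) :
    ∃ δ > 0, ∀ p τ : ℝ, (p : ℂ) ∉ Mt.closure ∅ → (τ : ℂ) ∉ Mt.closure ∅ →
      |p - Real.pi| < δ → |τ - Real.exp 1| < δ →
      ∃ E : ℂ → ℂ, RestrictedExp p E ∧ E 1 = τ ∧ ∀ z ∈ F, ‖E z - exp z‖ < ε := by
  classical
  obtain ⟨δ1, hδ1, h1⟩ := exists_delta F hε
  -- a bound for the numbers in `F`
  obtain ⟨M, hM0, hM⟩ : ∃ M : ℝ, 0 < M ∧ ∀ z ∈ F, ‖z‖ ≤ M := by
    refine ⟨1 + ∑ z ∈ F, ‖z‖, ?_, ?_⟩
    · have : 0 ≤ ∑ z ∈ F, ‖z‖ := Finset.sum_nonneg fun _ _ => norm_nonneg _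
      linarith
    · intro z hz
      have h3 : ‖z‖ ≤ ∑ z ∈ F, ‖z‖ :=
        Finset.single_le_sum (f := fun z : ℂ => ‖z‖) (fun _ _ => norm_nonneg _) hz
      linarith
  set η : ℝ := δ1 / (8 * M) with hη
  have hη0 : 0 < η := by positivity
  obtain ⟨δ2, hδ2, h2⟩ := Metric.continuousAt_iff.1
    (Real.continuousAt_log (Real.exp_pos 1).ne') η hη0
  have hpi := Real.pi_gt_three
  refine ⟨min (min δ2 (Real.exp 1)) (min 1 η), by positivity, fun p τ hp hτ hpd hτd => ?_⟩
  have hτ0 : 0 < τ := by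
    have h3 := (abs_lt.1 (hτd.trans_le ((min_le_left _ _).trans (min_le_right _ _)))).1
    linarith
  have ha : |Real.log τ - 1| ≤ η := by
    have h3 := h2 (x := τ) (by
      rw [Real.dist_eq]; exact hτd.trans_le ((min_le_left _ _).trans (min_le_left _ _)))
    rw [Real.dist_eq, Real.log_exp] at h3
    exact h3.le
  have hp2 : 2 < p := by
    have h3 := (abs_lt.1 (hpd.trans_le ((min_le_right _ _).trans (min_le_left _ _)))).1
    linarith
  have hp0 : 0 < p := by linarith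
  have hb : |Real.pi / p - 1| ≤ η := by
    have h3 : Real.pi / p - 1 = -(p - Real.pi) / p := by field_simp; ring
    rw [h3, abs_div, abs_neg, abs_of_pos hp0, div_le_iff₀ hp0]
    have h4 := hpd.trans_le ((min_le_right _ _).trans (min_le_right _ _))
    nlinarith
  have hG := base_good (two_mul_I_notMem hp) (conj_two_mul_I _) hτ0 hτ
  set a : ℝ := Real.log τ with ha'
  set b : ℝ := Real.pi / p with hb'
  have hL1 : Lin a b 1 = (a : ℂ) := by simp [Lin]
  have hL2 : Lin a b (2 * p * I) = 2 * Real.pi * I := by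
    have h3 : (b : ℂ) * p = Real.pi := by
      rw [hb']
      push_cast
      have : (p : ℂ) ≠ 0 := by exact_mod_cast hp0.ne'
      field_simp
    have h4 : Lin a b (2 * p * I) = 2 * (b * p) * I := by
      apply Complex.ext
      · simp [Lin]
      · simp [Lin]; ring
    rw [h4, h3]
  have hB : ∀ ε > 0, LBase a b {1, 2 * p * I} ε (2 * p * I) τ
      (Submodule.span ℚ {((1, ((a : ℝ) : ℂ)) : ℂ × ℂ)} ⊔
        Submodule.span ℚ {((2 * p * I, 2 * Real.pi * I) : ℂ × ℂ)}) := by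
    intro ε' hε'
    refine ⟨hG, ?_, ?_, ?_⟩
    · have h1 : #(Submodule.span ℚ {((1, ((a : ℝ) : ℂ)) : ℂ × ℂ)}) ≤ ℵ₀ := by
        refine (Cardinal.mk_le_of_surjective (f := fun q : ℚ =>
          (⟨q • ((1, ((a : ℝ) : ℂ)) : ℂ × ℂ), Submodule.smul_mem _ _
            (Submodule.mem_span_singleton_self _)⟩ :
            Submodule.span ℚ {((1, ((a : ℝ) : ℂ)) : ℂ × ℂ)})) ?_).trans
              Cardinal.mk_le_aleph0
        rintro ⟨v, hv⟩
        obtain ⟨q, rfl⟩ := Submodule.mem_span_singleton.1 hv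
        exact ⟨q, rfl⟩
      exact (sup_span_card _ _).trans (max_le h1 le_rfl)
    · intro v hv
      obtain ⟨u, hu, q, rfl⟩ := mem_dec hv
      obtain ⟨q', rfl⟩ := Submodule.mem_span_singleton.1 hu
      refine Submodule.add_mem _ (Submodule.smul_mem _ _ (Submodule.subset_span ?_))
        (Submodule.smul_mem _ _ (Submodule.subset_span ?_))
      · exact Or.inl rfl
      · exact Or.inr rfl
    · rintro t (rfl | ht)
      · refine ⟨_, hG.one, rfl, ?_⟩
        show ‖(a : ℂ) - Lin a b 1‖ ≤ ε'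
        rw [hL1, sub_self, norm_zero]
        exact hε'.le
      · rw [mem_singleton_iff] at ht
        subst ht
        refine ⟨_, hG.om, rfl, ?_⟩
        show ‖2 * Real.pi * I - Lin a b (2 * p * I)‖ ≤ ε'
        rw [hL2, sub_self, norm_zero]
        exact hε'.le
  set F' : Finset ℂ := F.image (fun z => (z.re : ℂ)) ∪ F.image (fun z => (z.im : ℂ) * I) with hF'
  have hF'2 : ∀ f ∈ F', f.im = 0 ∨ f.re = 0 := by
    intro f hf
    rcases Finset.mem_union.1 hf with hf | hf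
    · obtain ⟨z, _, rfl⟩ := Finset.mem_image.1 hf
      exact Or.inl (by simp)
    · obtain ⟨z, _, rfl⟩ := Finset.mem_image.1 hf
      exact Or.inr (by simp)
  obtain ⟨G, hle, hG', hGc, -, hG2⟩ := approx hB F' hF'2 (δ1 / 4) (by positivity)
  obtain ⟨E, hE, hEG⟩ := exists_restrictedExp hG' hGc
  refine ⟨E, hE, ?_, fun z hz => ?_⟩
  · have h5 : E 1 = exp ((a : ℝ) : ℂ) := hEG _ (hle hG.one)
    rw [h5, ← ofReal_exp, ha', Real.exp_log hτ0]
  obtain ⟨v, hv, hv1, hv2⟩ := hG2 (z.re : ℂ) (Or.inr (Finset.mem_coe.2 (Finset.mem_union_left _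
    (Finset.mem_image_of_mem _ hz))))
  obtain ⟨w, hw, hw1, hw2⟩ := hG2 ((z.im : ℂ) * I) (Or.inr (Finset.mem_coe.2
    (Finset.mem_union_right _ (Finset.mem_image_of_mem (fun z : ℂ => (z.im : ℂ) * I) hz))))
  have h3 : z = v.1 + w.1 := by rw [hv1, hw1]; exact (Complex.re_add_im z).symm
  have h4 : E z = exp (v.2 + w.2) := by
    rw [h3, hE.add, hEG v hv, hEG w hw, exp_add]
  rw [h4]
  refine h1 z hz _ ?_
  have h5 : v.2 + w.2 - z = (v.2 - Lin a b (z.re : ℂ)) + (w.2 - Lin a b ((z.im : ℂ) * I)) +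
      (Lin a b z - z) := by
    have h6 : Lin a b z = Lin a b (z.re : ℂ) + Lin a b ((z.im : ℂ) * I) := by
      rw [← lin_add, Complex.re_add_im]
    rw [h6]; ring
  rw [h5]
  have h6 : ‖Lin a b z - z‖ ≤ δ1 / 4 := by
    refine (lin_sub_norm a b z).trans ?_
    calc (|a - 1| + |b - 1|) * ‖z‖ ≤ (η + η) * M := by
          gcongr
          exact hM z hz
      _ = δ1 / 4 := by rw [hη]; field_simp; ring
  calc _ ≤ ‖(v.2 - Lin a b (z.re : ℂ)) + (w.2 - Lin a b ((z.im : ℂ) * I))‖ +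
        ‖Lin a b z - z‖ := norm_add_le _ _
    _ ≤ (‖v.2 - Lin a b (z.re : ℂ)‖ + ‖w.2 - Lin a b ((z.im : ℂ) * I)‖) + ‖Lin a b z - z‖ := by
        gcongr; exact norm_add_le _ _
    _ ≤ (δ1 / 4 + δ1 / 4) + δ1 / 4 := by gcongr
    _ ≤ δ1 := by linarith

end Pool.Agent.Helper90.EL
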